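import Pool.Agent.H648R3.SMP.NPMem

/-!
# Subpower membership for finite completely regular semigroups is in NP

Let `S` be a finite completely regular semigroup. We show that every element of the subsemigroup
generated by a set `A` of elements of `S ^ n` is the value of a straight-line program over `A` with
polynomially many (in `n`) instructions; such a program is a certificate for membership.

The programs are found by induction on the depth of the `J`-classes of the coordinates. The prefixes
of a product change their `R`-class at a coordinate only if the `J`-class of that coordinate drops.
So, in order to reach the `R`-class of an element `w`, it suffices to reach, at each of the (at most
`n * |S|`) drops, an element with prescribed values at the dropping coordinates, and there the depth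
is smaller; the same is done for the `L`-class, and this gives the idempotent in the `H`-class of
`w`. The maximal subgroup is generated by Schreier generators, which only need representatives of
`L`-classes, and the cube argument of Babai and Szemerédi reaches all elements of the subgroup.
-/

namespace Pool.Agent.Results.MP_c4ab36_lc.CompletelyRegularInNP

open Pool.Agent.NPC Pool.Agent.H648R3.SMP

/-- **For every finite completely regular semigroup `S`, the subpower membership problem of `S` is
in `NP`** (for every coding of the elements of `S`). -/
theorem result (S : Type) [Semigroup S] [Finite S] [TEnc S] (hS : CompletelyRegular S) :
    InNPP (SMP S) := by
  classical
  exact SMP648.smp_inNPP hS

end Pool.Agent.Results.MP_c4ab36_lc.CompletelyRegularInNP
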